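import Pool.Agent.Q304.CJ.Main

/-!
# `c`-conjugacy in the symmetric inverse monoid of an arbitrary set

A partial injection `α` of a set `X` splits `X` into components: cycles, double rays, right rays
(with a starting point, infinite forward), left rays (infinite backward, with a terminal point)
and finite chains. We show that `α ∼c β` in `I(X)` if and only if, as cardinals,

* `α` and `β` have the same number of cycles of every length `n`,
* the same number of double rays,
* the same total number of right rays and double rays,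
* the same number of left rays,
* for every `k ≥ 1` the same total number of left rays and of chains with at least `k` steps.

In the proof, `αg = gβ` with `g` defined on the image of `α` means that `g` embeds the components
of `α` into those of `β`, where a right ray can go to a double ray, and a chain to a longer chain
or a left ray, with terminal points going to terminal points. The numbers above decide if there
is such an embedding; for this we show that a decreasing sequence of sets embeds level by level
into another one if this is so for the cardinalities of the levels and of the intersections.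
-/

set_option autoImplicit false

namespace Pool.Agent.Results.MP_3f621b_al.CConjugacy

open Cardinal Pool.Agent.Q304.CJ

universe u

variable {X : Type u}

/-- The set `ℙ(a)`: for `a ≠ 0` the set of all `g` with `(ma)g ≠ 0` for all `ma ≠ 0`, and
`ℙ(0) = {0}`. Here `0 = ⊥` is the empty map, and `a.trans b` is the product `ab` of the symmetric
inverse monoid `I(X)` (first `a`, then `b`). -/
def PP (a : X ≃. X) : Set (X ≃. X) :=
  {g | (a = ⊥ → g = ⊥) ∧ (a ≠ ⊥ → ∀ m : X ≃. X, m.trans a ≠ ⊥ → (m.trans a).trans g ≠ ⊥)}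

/-- `c`-conjugacy in `I(X)`: `ag = gb` and `bh = ha` for some `g ∈ ℙ(a) ∪ {1}` and
`h ∈ ℙ(b) ∪ {1}`. -/
def CConj (a b : X ≃. X) : Prop :=
  ∃ g h : X ≃. X, (g ∈ PP a ∨ g = PEquiv.refl X) ∧ (h ∈ PP b ∨ h = PEquiv.refl X) ∧
    a.trans g = g.trans b ∧ b.trans h = h.trans a

theorem ne_bot_iff {a : X ≃. X} : a ≠ ⊥ ↔ ∃ x y, a x = some y := by
  constructor
  · intro h
    by_contra hcon
    push Not at hcon
    apply h
    ext x y
    have h1 : a x ≠ some y := hcon x y
    constructor
    · intro h2; exact absurd h2 h1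
    · intro h2
      have h3 : (⊥ : X ≃. X) x = some y := h2
      rw [PEquiv.bot_apply] at h3
      cases h3
  · rintro ⟨x, y, h⟩ rfl
    rw [PEquiv.bot_apply] at h
    cases h

theorem mem_PP_iff {a g : X ≃. X} (ha : a ≠ ⊥) :
    g ∈ PP a ↔ ∀ x y, a x = some y → ∃ z, g y = some z := by
  classical
  constructor
  · intro h x y hxy
    have h1 : (PEquiv.single x x).trans a ≠ ⊥ := by
      rw [ne_bot_iff]
      refine ⟨x, y, ?_⟩
      show ((PEquiv.single x x : X ≃. X) x).bind a = some y
      rw [PEquiv.single_apply]; exact hxy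
    have h2 := h.2 ha _ h1
    rw [ne_bot_iff] at h2
    obtain ⟨w, z, h2⟩ := h2
    change (((PEquiv.single x x : X ≃. X) w).bind a).bind g = some z at h2
    rw [Option.bind_eq_some_iff] at h2
    obtain ⟨v, h3, h4⟩ := h2
    rw [Option.bind_eq_some_iff] at h3
    obtain ⟨u, h5, h6⟩ := h3
    have h7 : u = x := by
      by_cases hw : w = x
      · subst hw
        rw [PEquiv.single_apply] at h5
        exact (Option.some.inj h5).symm
      · rw [PEquiv.single_apply_of_ne (Ne.symm hw)] at h5
        cases h5
    subst h7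
    rw [hxy] at h6
    obtain rfl := Option.some.inj h6
    exact ⟨z, h4⟩
  · intro h
    refine ⟨fun h0 => absurd h0 ha, fun _ m hm => ?_⟩
    rw [ne_bot_iff] at hm ⊢
    obtain ⟨x, y, hxy⟩ := hm
    have h1 : (m x).bind a = some y := hxy
    rw [Option.bind_eq_some_iff] at h1
    obtain ⟨w, _, h2⟩ := h1
    obtain ⟨z, hz⟩ := h w y h2
    refine ⟨x, z, ?_⟩
    show ((m.trans a) x).bind g = some z
    rw [hxy]; exact hz

theorem cconj_iff (a b : X ≃. X) : CConj a b ↔ Emb a b ∧ Emb b a := by
  have half : ∀ a b g : X ≃. X, a ≠ ⊥ → (g ∈ PP a ∨ g = PEquiv.refl X) →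
      a.trans g = g.trans b → Emb a b := by
    intro a b g ha hg h
    rcases hg with hg | hg
    · exact ⟨g, (mem_PP_iff ha).1 hg, h⟩
    · subst hg
      exact ⟨PEquiv.refl X, fun x y _ => ⟨y, rfl⟩, h⟩
  have hbot : ∀ b g : X ≃. X, (g ∈ PP b ∨ g = PEquiv.refl X) → b.trans g = g.trans ⊥ → b = ⊥ := by
    intro b g hg h
    by_contra hb
    rcases hg with hg | hg
    · obtain ⟨x, y, hxy⟩ := ne_bot_iff.1 hb
      obtain ⟨z, hz⟩ := (mem_PP_iff hb).1 hg x y hxy
      rw [PEquiv.trans_bot] at h
      have h1 : (b.trans g) x = some z := by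
        show (b x).bind g = some z
        rw [hxy]; exact hz
      rw [h, PEquiv.bot_apply] at h1
      cases h1
    · subst hg
      rw [PEquiv.trans_bot, PEquiv.trans_refl] at h
      exact hb h
  have hself : Emb (⊥ : X ≃. X) ⊥ := by
    refine ⟨⊥, ?_, rfl⟩
    intro x y h
    rw [PEquiv.bot_apply] at h
    cases h
  constructor
  · rintro ⟨g, h, hg, hh, h1, h2⟩
    by_cases ha : a = ⊥
    · subst ha
      obtain rfl := hbot b h hh h2
      exact ⟨hself, hself⟩
    · by_cases hb : b = ⊥
      · subst hb
        exact absurd (hbot a g hg h1) ha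
      · exact ⟨half a b g ha hg h1, half b a h hb hh h2⟩
  · rintro ⟨⟨g, hg, h1⟩, ⟨h, hh, h2⟩⟩
    have key : ∀ a b g : X ≃. X, (∀ x y, a x = some y → ∃ z, g y = some z) →
        a.trans g = g.trans b → ∃ g' : X ≃. X, (g' ∈ PP a ∨ g' = PEquiv.refl X) ∧
          a.trans g' = g'.trans b := by
      intro a b g hg h
      by_cases ha : a = ⊥
      · exact ⟨⊥, Or.inl ⟨fun _ => rfl, fun h => absurd ha h⟩, by
          rw [PEquiv.trans_bot, PEquiv.bot_trans]⟩
      · exact ⟨g, Or.inl ((mem_PP_iff ha).2 hg), h⟩
    obtain ⟨g', e1, e2⟩ := key a b g hg h1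
    obtain ⟨h', e3, e4⟩ := key b a h hh h2
    exact ⟨g', h', e1, e3, e2, e4⟩

/-- **Characterisation of `c`-conjugacy in `I(X)` for every set `X`.** -/
theorem result (α β : X ≃. X) :
    CConj α β ↔
      (∀ n, #(orbit α '' Per α n) = #(orbit β '' Per β n)) ∧
      #(orbit α '' Bi α) = #(orbit β '' Bi β) ∧
      #(orbit α '' Fwd α) = #(orbit β '' Fwd β) ∧
      (∀ k, 1 ≤ k → #(Term α k) = #(Term β k)) ∧
      #(⋂ k, Term α k : Set X) = #(⋂ k, Term β k : Set X) := by
  rw [cconj_iff, emb_iff, emb_iff]
  constructor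
  · rintro ⟨⟨a1, a2, a3, a4, a5⟩, ⟨b1, b2, b3, b4, b5⟩⟩
    exact ⟨fun n => le_antisymm (a1 n) (b1 n), le_antisymm a2 b2, le_antisymm a3 b3,
      fun k hk => le_antisymm (a4 k hk) (b4 k hk), le_antisymm a5 b5⟩
  · rintro ⟨a1, a2, a3, a4, a5⟩
    exact ⟨⟨fun n => (a1 n).le, a2.le, a3.le, fun k hk => (a4 k hk).le, a5.le⟩,
      ⟨fun n => (a1 n).ge, a2.ge, a3.ge, fun k hk => (a4 k hk).ge, a5.ge⟩⟩

end Pool.Agent.Results.MP_3f621b_al.CConjugacy
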